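import Pool.Agent.H78R3.TSV.Red
import Pool.Agent.ER.GapSys

/-!
# The gap for the homogeneous system with an extended chain of powers
-/

set_option autoImplicit false

namespace Pool.Agent.X246.SNB

open Finset Pool.Agent.NPC Pool.Agent.NPC.ER Pool.Agent.H78R3.TSV

/-- The index of the last element of the chain. -/
def lastI (S : List ER.Con) : ℕ := bK S + gapK (bsys S).length

/-- The bounded system with the chain of the powers of `1/8` extended. -/
def esys (S : List ER.Con) : List ER.Con :=
  bsys S ++ (List.range (gapK (bsys S).length)).map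
    (fun j => ER.Con.mul (ev (bK S + j)) (ev (bK S + j)) (ev (bK S + j + 1)))

/-- The bound `4 x² + s² = x₀²`. -/
def slack4 (N r : ℕ) : QC := ((4, r + 1, r + 1), (1, N + 1 + r, N + 1 + r), (-1, 0, 0))

/-- The trivial constraint. -/
def zc : QC := ((0, 0, 0), (0, 0, 0), (0, 0, 0))

/-- The homogeneous system. -/
def gsys (T : List ER.Con) : List QC :=
  List.replicate 1100 zc ++ (T.map (hcon (svars T)) ++
    (List.range (svars T).length).map (slack4 (svars T).length))

/-- The index of the bonus variable. -/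
def ui (S : List ER.Con) : ℕ := ix (svars (esys S)) (ev (lastI S))

theorem zc_ok (n : ℕ) (hn : 0 < n) : GOk n zc := by
  refine ⟨⟨?_, ?_, ?_⟩, ⟨?_, ?_, ?_⟩, ⟨?_, ?_, ?_⟩⟩ <;> simp [zc, hn]

theorem gsys_ok (T : List ER.Con) : ∀ g ∈ gsys T, GOk (hn T) g := by
  intro g hg
  have h := hsys_ok T
  unfold gsys at hg
  rw [List.mem_append, List.mem_append, List.mem_map, List.mem_map] at hg
  rcases hg with hg | ⟨c, hc, rfl⟩ | ⟨r, hr, rfl⟩
  · rw [List.eq_of_mem_replicate hg]
    exact zc_ok _ (by unfold hn; omega)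
  · exact h _ (List.mem_append_left _ (List.mem_map.2 ⟨c, hc, rfl⟩))
  · have := List.mem_range.1 hr
    refine ⟨⟨by simp [slack4], ?_, ?_⟩, ⟨by simp [slack4], ?_, ?_⟩, ⟨by simp [slack4], ?_, ?_⟩⟩ <;>
        simp only [slack4, hn] <;> omega

theorem length_gsys (T : List ER.Con) : 1100 ≤ (gsys T).length := by
  unfold gsys
  rw [List.length_append, List.length_replicate]
  omega

/-- The sum of the squares of the constraints. -/
def qsum (G : List QC) (p : ℕ → ℝ) : ℝ := (G.map (fun g => gev p p g * gev p p g)).sum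

theorem abs_gev_le {G : List QC} {p : ℕ → ℝ} {g : QC} (hg : g ∈ G) :
    |gev p p g| ≤ √(qsum G p) := by
  apply Real.abs_le_sqrt
  unfold qsum
  have h1 : gev p p g * gev p p g ∈ G.map (fun g => gev p p g * gev p p g) :=
    List.mem_map.2 ⟨g, hg, rfl⟩
  rw [sq]
  apply List.single_le_sum _ _ h1
  intro x hx
  obtain ⟨g', _, rfl⟩ := List.mem_map.1 hx
  exact mul_self_nonneg _

theorem qsum_nonneg (G : List QC) (p : ℕ → ℝ) : 0 ≤ qsum G p := by
  unfold qsum
  apply List.sum_nonneg
  intro x hx
  obtain ⟨g', _, rfl⟩ := List.mem_map.1 hx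
  exact mul_self_nonneg _

theorem mul_mem_esys (S : List ER.Con) {j : ℕ} (hj : j < lastI S) :
    ER.Con.mul (ev j) (ev j) (ev (j + 1)) ∈ esys S := by
  unfold lastI at hj
  unfold esys
  rcases lt_or_ge j (bK S) with h | h
  · apply List.mem_append_left
    unfold bsys
    refine List.mem_cons_of_mem _ (List.mem_append_left _ ?_)
    rw [List.mem_map]
    exact ⟨j, List.mem_range.2 h, rfl⟩
  · apply List.mem_append_right
    rw [List.mem_map]
    refine ⟨j - bK S, List.mem_range.2 (by omega), ?_⟩
    have : bK S + (j - bK S) = j := by omega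
    rw [this]

theorem last_mem_svars (S : List ER.Con) : ev (lastI S) ∈ svars (esys S) := by
  have h1 : 0 < lastI S := by unfold lastI gapK; omega
  have h2 := mul_mem_esys S (j := lastI S - 1) (by omega)
  have h3 : lastI S - 1 + 1 = lastI S := by omega
  rw [h3] at h2
  exact mem_svars h2 (by simp [Con.vars])

theorem sat_esys_of (S : List ER.Con) (h : Sat S) : ∃ w : ℕ → ℝ, (∀ i, |w i| ≤ 1 / 8) ∧
    (∀ c ∈ esys S, c.HoldsC (1 / 8) w) ∧ w (ev (lastI S)) ≠ 0 := by
  obtain ⟨w, hw, hc⟩ := bsys_of_sat h
  have hev := ev_value hc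
  have hpow : ∀ j : ℕ, |((1 : ℝ) / 8) ^ 2 ^ j| ≤ 1 / 8 := by
    intro j
    rw [abs_of_pos (by positivity)]
    calc ((1 : ℝ) / 8) ^ 2 ^ j ≤ (1 / 8) ^ 1 :=
          pow_le_pow_of_le_one (by norm_num) (by norm_num) Nat.one_le_two_pow
      _ = 1 / 8 := pow_one _
  let w' : ℕ → ℝ := fun i => if i % 4 = 1 then (1 / 8) ^ 2 ^ (i / 4) else w i
  have e1 : ∀ j, w' (ev j) = (1 / 8) ^ 2 ^ j := by
    intro j
    have h1 : ev j % 4 = 1 := by unfold ER.ev; omega
    have h2 : ev j / 4 = j := by unfold ER.ev; omega
    simp only [w', h1, h2, if_true]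
  have e1' : ∀ j ≤ bK S, w' (ev j) = w (ev j) := by
    intro j hj
    rw [e1, hev j hj]
  have e2 : ∀ i, w' (2 * i) = w (2 * i) := by
    intro i
    have h1 : (2 * i) % 4 ≠ 1 := by omega
    simp only [w', h1, if_false]
  have e3 : ∀ t, w' (4 * t + 3) = w (4 * t + 3) := by
    intro t
    have h1 : (4 * t + 3) % 4 ≠ 1 := by omega
    simp only [w', h1, if_false]
  refine ⟨w', ?_, ?_, ?_⟩
  · intro i
    simp only [w']
    split_ifs with h1
    · exact hpow _
    · exact hw i
  · intro c hc'
    unfold esys at hc'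
    rw [List.mem_append] at hc'
    rcases hc' with hc' | hc'
    · have hh := hc c hc'
      unfold bsys at hc'
      rw [List.mem_cons, List.mem_append, List.mem_map] at hc'
      rcases hc' with rfl | ⟨j, hj, rfl⟩ | hc'
      · simp only [Con.HoldsC] at hh ⊢
        rw [e1' 0 (Nat.zero_le _)]; exact hh
      · have hj := List.mem_range.1 hj
        simp only [Con.HoldsC] at hh ⊢
        rw [e1' j (by omega), e1' (j + 1) (by omega)]; exact hh
      · rw [List.mem_flatMap] at hc'
        obtain ⟨⟨c₀, t⟩, _, hc'⟩ := hc'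
        cases c₀ with
        | one i =>
          simp only [bcon, List.mem_cons, List.not_mem_nil, or_false] at hc'
          rcases hc' with rfl | rfl
          · simp only [Con.HoldsC] at hh ⊢; rw [e3]; exact hh
          · simp only [Con.HoldsC] at hh ⊢; rw [e3, e2, e1' _ le_rfl]; exact hh
        | add i j k =>
          simp only [bcon, List.mem_cons, List.not_mem_nil, or_false] at hc'
          subst hc'
          simp only [Con.HoldsC] at hh ⊢; rw [e2, e2, e2]; exact hh
        | mul i j k =>
          simp only [bcon, List.mem_cons, List.not_mem_nil, or_false] at hc'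
          rcases hc' with rfl | rfl
          · simp only [Con.HoldsC] at hh ⊢; rw [e3, e2, e2]; exact hh
          · simp only [Con.HoldsC] at hh ⊢; rw [e3, e2, e1' _ le_rfl]; exact hh
    · rw [List.mem_map] at hc'
      obtain ⟨j, hj, rfl⟩ := hc'
      simp only [Con.HoldsC]
      rw [e1, e1, ← pow_add]
      congr 1
      ring
  · rw [e1]
    positivity

/-- **The gap.** If the system is unsatisfiable then the last element of the chain is small compared
to the errors of the constraints. -/
theorem gap (S : List ER.Con) (hS : ¬ Sat S) (p : ℕ → ℝ) :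
    16 * p (ui S) ^ 4 ≤ (gsys (esys S)).length * qsum (gsys (esys S)) p := by
  set T := esys S with hT
  set V := svars T with hV
  set N := V.length with hN
  set G := gsys T with hG
  set Q := qsum G p with hQ
  have hQ0 : 0 ≤ Q := qsum_nonneg G p
  have hL : (1100 : ℝ) ≤ G.length := by exact_mod_cast length_gsys T
  set E := √Q with hE
  have hE0 : 0 ≤ E := Real.sqrt_nonneg _
  have hEQ : E ^ 2 = Q := Real.sq_sqrt hQ0
  have hgE : ∀ g ∈ G, |gev p p g| ≤ E := fun g hg => abs_gev_le hg
  by_contra hctr
  rw [not_le] at hctr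
  have hcon' : 1100 * E ^ 2 < 16 * p (ui S) ^ 4 := by
    rw [hEQ]
    refine lt_of_le_of_lt ?_ hctr
    exact mul_le_mul_of_nonneg_right hL hQ0
  -- slack
  have hslack : ∀ i ∈ V, |8 * p (ix V i) ^ 2 + 2 * p (N + 1 + V.idxOf i) ^ 2 - 2 * p 0 ^ 2| ≤ E := by
    intro i hi
    have h1 := List.idxOf_lt_length_of_mem hi
    have h2 := hgE (slack4 N (V.idxOf i)) (by
      rw [hG]
      unfold gsys
      exact List.mem_append_right _ (List.mem_append_right _ (List.mem_map.2
        ⟨V.idxOf i, List.mem_range.2 h1, rfl⟩)))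
    simp only [gev, tev, bev, slack4] at h2
    push_cast at h2
    have e : 8 * p (ix V i) ^ 2 + 2 * p (N + 1 + V.idxOf i) ^ 2 - 2 * p 0 ^ 2 =
        4 * (p (V.idxOf i + 1) * p (V.idxOf i + 1) + p (V.idxOf i + 1) * p (V.idxOf i + 1)) +
        1 * (p (N + 1 + V.idxOf i) * p (N + 1 + V.idxOf i) +
          p (N + 1 + V.idxOf i) * p (N + 1 + V.idxOf i)) + -1 * (p 0 * p 0 + p 0 * p 0) := by
      unfold ix
      ring
    rw [e]
    exact h2
  have hlast := last_mem_svars S
  rw [← hT, ← hV] at hlast
  have hui : ui S = ix V (ev (lastI S)) := rfl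
  by_cases hp0 : p 0 = 0
  · have h1 := hslack _ hlast
    rw [hp0] at h1
    have h2 := (abs_le.1 h1).2
    rw [← hui] at h2
    have h3 : 8 * p (ui S) ^ 2 ≤ E := by nlinarith [sq_nonneg (p (N + 1 + V.idxOf (ev (lastI S))))]
    have h4 : 0 ≤ p (ui S) ^ 2 := sq_nonneg _
    have h5 : 64 * p (ui S) ^ 4 ≤ E ^ 2 := by nlinarith
    nlinarith
  · have hp2 : 0 < p 0 ^ 2 := by positivity
    set w : ℕ → ℝ := fun i => p (ix V i) / p 0 with hw
    obtain ⟨e, he⟩ : ∃ e, e = E / p 0 ^ 2 := ⟨_, rfl⟩
    have he0 : 0 ≤ e := by rw [he]; positivity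
    have hEe : E = e * p 0 ^ 2 := by rw [he]; field_simp
    have hpw : ∀ i, p (ix V i) = w i * p 0 := by
      intro i; simp only [hw]; field_simp
    have hbound : ∀ i ∈ V, 8 * w i ^ 2 ≤ 2 + e := by
      intro i hi
      have h1 := (abs_le.1 (hslack i hi)).2
      rw [hpw, hEe] at h1
      have h2 : 8 * w i ^ 2 * p 0 ^ 2 ≤ (2 + e) * p 0 ^ 2 := by
        nlinarith [sq_nonneg (p (N + 1 + V.idxOf i))]
      exact le_of_mul_le_mul_right h2 hp2
    set W := w (ev (lastI S)) ^ 2 with hW
    have hW0 : 0 ≤ W := sq_nonneg _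
    have hWe : 33 * e < 4 * W := by
      have h1 : 1100 * e ^ 2 < 16 * W ^ 2 := by
        rw [hui, hpw, hEe] at hcon'
        have h2 : 1100 * e ^ 2 * (p 0 ^ 2) ^ 2 < 16 * W ^ 2 * (p 0 ^ 2) ^ 2 := by
          have h3 : 1100 * (e * p 0 ^ 2) ^ 2 = 1100 * e ^ 2 * (p 0 ^ 2) ^ 2 := by ring
          have h4 : 16 * (w (ev (lastI S)) * p 0) ^ 4 = 16 * W ^ 2 * (p 0 ^ 2) ^ 2 := by
            rw [hW]; ring
          linarith
        exact lt_of_mul_lt_mul_right h2 (by positivity)
      by_contra h2
      rw [not_lt] at h2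
      nlinarith
    have he32 : e < 1 / 32 := by
      have := hbound _ hlast
      rw [← hW] at this
      linarith
    have herr : ∀ c ∈ T, |c.err w| ≤ e / 2 := by
      intro c hc
      have h1 := hgE (hcon V c) (by
        rw [hG]
        unfold gsys
        exact List.mem_append_right _ (List.mem_append_left _ (List.mem_map.2 ⟨c, hc, rfl⟩)))
      have h2 : gev p p (hcon V c) = 2 * p 0 ^ 2 * c.err w := by
        cases c with
        | one i =>
          simp only [gev, tev, bev, hcon, Con.err]
          rw [hpw]; push_cast; ring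
        | add i j k =>
          simp only [gev, tev, bev, hcon, Con.err]
          rw [hpw, hpw, hpw]; push_cast; ring
        | mul i j k =>
          simp only [gev, tev, bev, hcon, Con.err]
          rw [hpw, hpw, hpw]; push_cast; ring
      rw [h2, abs_mul, abs_of_pos (by positivity), hEe] at h1
      have h3 : |c.err w| * p 0 ^ 2 ≤ e / 2 * p 0 ^ 2 := by linarith
      exact le_of_mul_le_mul_right h3 hp2
    have hT' : ∀ c ∈ bsys S, c ∈ T := fun c hc => List.mem_append_left _ hc
    -- the gap theorem
    have hgap : 2 * (1 / 2 : ℝ) ^ 2 ^ gapK (bsys S).length < e := by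
      by_contra hle
      rw [not_lt] at hle
      apply hS
      obtain ⟨w', hw'⟩ := holds_of_approx (S := bsys S) (w := w) (by
        intro i hi
        have hiV : i ∈ V := by
          rw [hV, hT]
          unfold svars at hi ⊢
          rw [List.mem_flatMap] at hi ⊢
          obtain ⟨c, hc, hi⟩ := hi
          exact ⟨c, hT' c hc, hi⟩
        have h1 := hbound i hiV
        rw [abs_le_one_iff_mul_self_le_one]
        nlinarith) (by
        intro c hc
        have h1 := herr c (hT' c hc)
        have h2 : (0 : ℝ) < 2 ^ 2 ^ gapK (bsys S).length := by positivity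
        have h3 : (1 / 2 : ℝ) ^ 2 ^ gapK (bsys S).length * 2 ^ 2 ^ gapK (bsys S).length = 1 := by
          rw [← mul_pow]; norm_num
        calc |c.err w| * 2 ^ 2 ^ gapK (bsys S).length
            ≤ (1 / 2 : ℝ) ^ 2 ^ gapK (bsys S).length * 2 ^ 2 ^ gapK (bsys S).length :=
              mul_le_mul_of_nonneg_right (by linarith) h2.le
          _ ≤ 1 := h3.le)
      exact sat_of_bsys hw'
    -- the chain
    have hchain : ∀ j ≤ lastI S, |w (ev j)| ≤ max e (1 / 2 * (1 / 2) ^ 2 ^ j) := by
      intro j
      induction j with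
      | zero =>
        intro _
        have h1 := herr (ER.Con.one (ev 0)) (hT' _ (by simp [bsys]))
        simp only [Con.err] at h1
        rw [abs_le] at h1
        apply le_max_of_le_right
        rw [abs_le]
        norm_num
        constructor <;> linarith
      | succ j ih =>
        intro hj
        have h1 := ih (by omega)
        have h2 := herr _ (mul_mem_esys S (j := j) (by omega))
        simp only [Con.err] at h2
        obtain ⟨b, hb⟩ : ∃ b : ℝ, b = (1 / 2) ^ 2 ^ j := ⟨_, rfl⟩
        have hb0 : 0 < b := by rw [hb]; positivity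
        have hb2 : (1 / 2 : ℝ) ^ 2 ^ (j + 1) = b ^ 2 := by
          rw [hb, ← pow_mul, pow_succ]
        rw [hb2]
        rw [← hb] at h1
        rw [abs_le] at h2
        have hwle : w (ev j) ^ 2 ≤ max (e ^ 2) (1 / 4 * b ^ 2) := by
          rcases le_max_iff.1 h1 with h3 | h3
          · apply le_max_of_le_left
            rw [← sq_abs]
            exact pow_le_pow_left₀ (abs_nonneg _) h3 2
          · apply le_max_of_le_right
            rw [← sq_abs]
            refine (pow_le_pow_left₀ (abs_nonneg _) h3 2).trans (le_of_eq (by ring))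
        have hsq := sq_nonneg (w (ev j))
        have hb4 : 0 < b ^ 2 := by positivity
        rcases le_max_iff.1 hwle with h3 | h3
        · apply le_max_of_le_left
          rw [abs_le]
          constructor <;> nlinarith
        · rcases le_total (e / 2) (1 / 4 * b ^ 2) with h4 | h4
          · apply le_max_of_le_right
            rw [abs_le]
            constructor <;> nlinarith
          · apply le_max_of_le_left
            rw [abs_le]
            constructor <;> nlinarith
    have hfin := hchain (lastI S) le_rfl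
    have hsmall : (1 / 2 : ℝ) * (1 / 2) ^ 2 ^ lastI S ≤ e := by
      have h1 : (1 / 2 : ℝ) ^ 2 ^ lastI S ≤ (1 / 2) ^ 2 ^ gapK (bsys S).length := by
        apply pow_le_pow_of_le_one (by norm_num) (by norm_num)
        apply Nat.pow_le_pow_right (by norm_num)
        unfold lastI
        omega
      have h2 : (0 : ℝ) < (1 / 2) ^ 2 ^ gapK (bsys S).length := by positivity
      linarith
    rw [max_eq_left hsmall] at hfin
    have hWle : W ≤ e ^ 2 := by
      rw [hW, ← sq_abs]
      exact pow_le_pow_left₀ (abs_nonneg _) hfin 2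
    nlinarith

end Pool.Agent.X246.SNB
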