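import Pool.Agent.X246.SNB.Gap

/-!
# The spectral norm of the tensor of a system
-/

set_option autoImplicit false

namespace Pool.Agent.X246.SNB

open Finset Pool.Agent.NPC Pool.Agent.NPC.ER Pool.Agent.H78R3.TSV

/-- The number of the variables. -/
def nn (S : List ER.Con) : ℕ := hn (esys S)

/-- The forms of a system, with the bonus form `2 x_u y_u`. -/
def bforms (S : List ER.Con) : List (List QT) :=
  [((1 : ℤ), (ui S, ui S))] :: forms (nn S) (gsys (esys S))

theorem ui_lt (S : List ER.Con) : ui S < nn S := by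
  have h1 := List.idxOf_lt_length_of_mem (last_mem_svars S)
  unfold ui nn ix hn
  omega

theorem S_bforms (S : List ER.Con) (x y : ℕ → ℝ) : Pool.Agent.H78R3.TSV.S x y x y (bforms S) =
    4 * (x (ui S) * y (ui S)) ^ 2 + 1152 * ((gsys (esys S)).length : ℝ) ^ 2 *
      ((∑ i ∈ range (nn S), x i ^ 2) * (∑ i ∈ range (nn S), y i ^ 2) +
        (∑ i ∈ range (nn S), x i * y i) ^ 2) -
      ((gsys (esys S)).length : ℝ) *
        ((gsys (esys S)).map (fun g => gev x y g * gev x y g)).sum := by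
  unfold bforms
  rw [S_cons, S_forms x y x y (nn S) (gsys (esys S)) (gsys_ok (esys S)), sum_bev]
  have e1 : ∑ i ∈ range (nn S), x i * x i = ∑ i ∈ range (nn S), x i ^ 2 := by simp only [sq]
  have e2 : ∑ i ∈ range (nn S), y i * y i = ∑ i ∈ range (nn S), y i ^ 2 := by simp only [sq]
  have e3 : ∑ i ∈ range (nn S), y i * x i = ∑ i ∈ range (nn S), x i * y i :=
    Finset.sum_congr rfl (fun i _ => mul_comm _ _)
  rw [e1, e2, e3, fev_cons, fev_nil]
  unfold tev bev
  push_cast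
  ring

theorem bev_le {n : ℕ} {d : ℕ → ℝ} {p : ℕ × ℕ} (h1 : p.1 < n) (h2 : p.2 < n) :
    |bev d d p| ≤ 2 * ∑ i ∈ range n, d i ^ 2 := by
  have hs : ∀ i, i < n → d i ^ 2 ≤ ∑ i ∈ range n, d i ^ 2 := fun i hi =>
    Finset.single_le_sum (f := fun i => d i ^ 2) (fun i _ => sq_nonneg (d i))
      (Finset.mem_range.2 hi)
  have a1 := hs _ h1
  have a2 := hs _ h2
  unfold bev
  rw [abs_le]
  constructor <;> nlinarith [sq_nonneg (d p.1 + d p.2), sq_nonneg (d p.1 - d p.2)]

theorem tev_le {n : ℕ} {d : ℕ → ℝ} {t : QT} (ht : TOk n t) :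
    |tev d d t| ≤ 16 * ∑ i ∈ range n, d i ^ 2 := by
  obtain ⟨h0, h1, h2⟩ := ht
  have hb := bev_le (d := d) h1 h2
  unfold tev
  rw [abs_mul]
  have h3 : |(t.1 : ℝ)| ≤ 8 := by
    have : |t.1| ≤ 8 := by rw [Int.abs_eq_natAbs]; exact_mod_cast h0
    exact_mod_cast this
  calc |(t.1 : ℝ)| * |bev d d t.2| ≤ 8 * (2 * ∑ i ∈ range n, d i ^ 2) :=
        mul_le_mul h3 hb (abs_nonneg _) (by norm_num)
    _ = 16 * ∑ i ∈ range n, d i ^ 2 := by ring

theorem gev_le {n : ℕ} {d : ℕ → ℝ} {g : QC} (hg : GOk n g) :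
    gev d d g * gev d d g ≤ 2304 * (∑ i ∈ range n, d i ^ 2) ^ 2 := by
  obtain ⟨h1, h2, h3⟩ := hg
  have a1 := tev_le (d := d) h1
  have a2 := tev_le (d := d) h2
  have a3 := tev_le (d := d) h3
  have h4 : |gev d d g| ≤ 48 * ∑ i ∈ range n, d i ^ 2 := by
    unfold gev
    refine (abs_add_three _ _ _).trans ?_
    linarith
  rw [← abs_mul_abs_self]
  calc |gev d d g| * |gev d d g| ≤ (48 * ∑ i ∈ range n, d i ^ 2) * (48 * ∑ i ∈ range n, d i ^ 2) :=
        mul_le_mul h4 h4 (abs_nonneg _) ((abs_nonneg _).trans h4)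
    _ = 2304 * (∑ i ∈ range n, d i ^ 2) ^ 2 := by ring

theorem sum_lower {n : ℕ} (p d : ℕ → ℝ) (G : List QC) (hG : ∀ g ∈ G, GOk n g) :
    1 / 2 * qsum G p - G.length * (2304 * (∑ i ∈ range n, d i ^ 2) ^ 2) ≤
      (G.map (fun g => (gev p p g - gev d d g) * (gev p p g - gev d d g))).sum := by
  induction G with
  | nil => simp [qsum]
  | cons g G ih =>
    have h1 := ih (fun g' hg' => hG g' (List.mem_cons_of_mem _ hg'))
    have h2 := gev_le (d := d) (hG g List.mem_cons_self)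
    unfold qsum at h1 ⊢
    simp only [List.map_cons, List.sum_cons, List.length_cons]
    push_cast
    have h3 : 1 / 2 * (gev p p g * gev p p g) - gev d d g * gev d d g ≤
        (gev p p g - gev d d g) * (gev p p g - gev d d g) := by
      nlinarith [sq_nonneg (gev p p g - 2 * gev d d g)]
    linarith

theorem core {n u : ℕ} (hu : u < n) {G : List QC} (hG : ∀ g ∈ G, GOk n g) (hL : 1 ≤ G.length)
    (p d : ℕ → ℝ) (hgap : 16 * p u ^ 4 ≤ G.length * qsum G p)
    (hPD : ∑ i ∈ range n, d i ^ 2 ≤ ∑ i ∈ range n, p i ^ 2)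
    (hsum : ∑ i ∈ range n, p i ^ 2 + ∑ i ∈ range n, d i ^ 2 ≤ 1) (m : ℝ) :
    4 * (p u ^ 2 - d u ^ 2) ^ 2 + 1152 * (G.length : ℝ) ^ 2 *
      (2 * (∑ i ∈ range n, p i ^ 2) ^ 2 + 2 * (∑ i ∈ range n, d i ^ 2) ^ 2 - 4 * m ^ 2) -
      G.length * (G.map (fun g => (gev p p g - gev d d g) * (gev p p g - gev d d g))).sum ≤
      2304 * (G.length : ℝ) ^ 2 := by
  have h1 := sum_lower (n := n) p d G hG
  have hLr : (1 : ℝ) ≤ G.length := by exact_mod_cast hL
  set L : ℝ := (G.length : ℝ) with hLdef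
  have hP0 : 0 ≤ ∑ i ∈ range n, p i ^ 2 := Finset.sum_nonneg (fun _ _ => sq_nonneg _)
  have hD0 : 0 ≤ ∑ i ∈ range n, d i ^ 2 := Finset.sum_nonneg (fun _ _ => sq_nonneg _)
  have hdu : d u ^ 2 ≤ ∑ i ∈ range n, d i ^ 2 :=
    Finset.single_le_sum (f := fun i => d i ^ 2) (fun i _ => sq_nonneg (d i))
      (Finset.mem_range.2 hu)
  set P := ∑ i ∈ range n, p i ^ 2 with hP
  set D := ∑ i ∈ range n, d i ^ 2 with hD
  set Z := (G.map (fun g => (gev p p g - gev d d g) * (gev p p g - gev d d g))).sum with hZ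
  have h2 : L * (1 / 2 * qsum G p - L * (2304 * D ^ 2)) ≤ L * Z :=
    mul_le_mul_of_nonneg_left h1 (by linarith)
  have hL2 : 1 ≤ L ^ 2 := by nlinarith
  have h3 : 4 * (p u ^ 2 - d u ^ 2) ^ 2 ≤ 8 * p u ^ 4 + 8 * d u ^ 4 := by
    nlinarith [sq_nonneg (p u ^ 2 + d u ^ 2)]
  have h4 : d u ^ 4 ≤ D ^ 2 := by
    have : d u ^ 4 = (d u ^ 2) ^ 2 := by ring
    rw [this]
    exact pow_le_pow_left₀ (sq_nonneg _) hdu 2
  have h5 : D ^ 2 ≤ P * D := by nlinarith
  have h6 : P ^ 2 + D ^ 2 + 2 * (P * D) ≤ 1 := by nlinarith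
  have h7 : 0 ≤ L ^ 2 * m ^ 2 := by positivity
  have h8 : L ^ 2 * (P ^ 2 + D ^ 2 + 2 * (P * D)) ≤ L ^ 2 * 1 :=
    mul_le_mul_of_nonneg_left h6 (by positivity)
  have h9 : L ^ 2 * D ^ 2 ≤ L ^ 2 * (P * D) := mul_le_mul_of_nonneg_left h5 (by positivity)
  have h10 : D ^ 2 ≤ L ^ 2 * D ^ 2 := le_mul_of_one_le_left (sq_nonneg _) hL2
  nlinarith

theorem main_le (S : List ER.Con) (hS : ¬ Sat S) (x y : ℕ → ℝ)
    (hx : ∑ i ∈ range (nn S), x i ^ 2 ≤ 1) (hy : ∑ i ∈ range (nn S), y i ^ 2 ≤ 1) :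
    Pool.Agent.H78R3.TSV.S x y x y (bforms S) ≤ (48 * ((gsys (esys S)).length : ℝ)) ^ 2 := by
  rw [S_bforms]
  set n := nn S with hn
  set G := gsys (esys S) with hG
  obtain ⟨p, hp⟩ : ∃ p : ℕ → ℝ, p = fun i => (x i + y i) / 2 := ⟨_, rfl⟩
  obtain ⟨d, hd⟩ : ∃ d : ℕ → ℝ, d = fun i => (x i - y i) / 2 := ⟨_, rfl⟩
  have ex : ∀ i, x i = p i + d i := fun i => by rw [hp, hd]; ring
  have ey : ∀ i, y i = p i - d i := fun i => by rw [hp, hd]; ring
  obtain ⟨P, hP⟩ : ∃ P, P = ∑ i ∈ range n, p i ^ 2 := ⟨_, rfl⟩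
  obtain ⟨D, hD⟩ : ∃ D, D = ∑ i ∈ range n, d i ^ 2 := ⟨_, rfl⟩
  obtain ⟨m, hm⟩ : ∃ m, m = ∑ i ∈ range n, p i * d i := ⟨_, rfl⟩
  have sx : ∑ i ∈ range n, x i ^ 2 = P + D + 2 * m := by
    have : ∀ i, x i ^ 2 = p i ^ 2 + d i ^ 2 + 2 * (p i * d i) := fun i => by rw [ex]; ring
    simp_rw [this, Finset.sum_add_distrib, ← Finset.mul_sum]
    rw [hP, hD, hm]
  have sy : ∑ i ∈ range n, y i ^ 2 = P + D - 2 * m := by
    have : ∀ i, y i ^ 2 = p i ^ 2 + d i ^ 2 - 2 * (p i * d i) := fun i => by rw [ey]; ring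
    simp_rw [this, Finset.sum_sub_distrib, Finset.sum_add_distrib, ← Finset.mul_sum]
    rw [hP, hD, hm]
  have sxy : ∑ i ∈ range n, x i * y i = P - D := by
    have : ∀ i, x i * y i = p i ^ 2 - d i ^ 2 := fun i => by rw [ex, ey]; ring
    simp_rw [this, Finset.sum_sub_distrib]
    rw [hP, hD]
  have sg : ∀ g : QC, gev x y g = gev p p g - gev d d g := by
    intro g
    unfold gev tev bev
    simp only [ex, ey]
    ring
  rw [sx] at hx
  rw [sy] at hy
  have hsum : P + D ≤ 1 := by linarith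
  have eu : (x (ui S) * y (ui S)) ^ 2 = (p (ui S) ^ 2 - d (ui S) ^ 2) ^ 2 := by
    rw [ex, ey]; ring
  rw [sx, sy, sxy, eu]
  simp only [sg]
  have hL := length_gsys (esys S)
  rw [← hG] at hL
  rcases le_total D P with hPD | hPD
  · have h := core (ui_lt S) (gsys_ok (esys S)) (by rw [← hG]; omega) p d (gap S hS p)
      (by rw [← hP, ← hD]; exact hPD) (by rw [← hP, ← hD]; exact hsum) m
    rw [← hn, ← hG, ← hP, ← hD] at h
    refine le_trans (le_of_eq ?_) (h.trans (le_of_eq (by ring)))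
    ring
  · have h := core (ui_lt S) (gsys_ok (esys S)) (by rw [← hG]; omega) d p (gap S hS d)
      (by rw [← hP, ← hD]; exact hPD) (by rw [← hP, ← hD]; linarith) m
    rw [← hn, ← hG, ← hP, ← hD] at h
    have e : (G.map (fun g => (gev p p g - gev d d g) * (gev p p g - gev d d g))).sum =
        (G.map (fun g => (gev d d g - gev p p g) * (gev d d g - gev p p g))).sum := by
      congr 1
      apply List.map_congr_left
      intro g _
      ring
    rw [e]
    refine le_trans (le_of_eq ?_) (h.trans (le_of_eq (by ring)))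
    ring

theorem exists_solution (S : List ER.Con) (h : Sat S) : ∃ x : ℕ → ℝ, x (ui S) ≠ 0 ∧
    ∀ g ∈ gsys (esys S), gev x x g = 0 := by
  obtain ⟨w, hw, hc, hlast⟩ := sat_esys_of S h
  have hmemlast := last_mem_svars S
  set T := esys S with hT
  set V := svars T with hV
  set N := V.length with hN
  let x : ℕ → ℝ := fun i => if i = 0 then 1 else if i < N + 1 then w (V.getD (i - 1) 0) else
    Real.sqrt (1 - 4 * w (V.getD (i - (N + 1)) 0) ^ 2)
  have x0 : x 0 = 1 := by simp [x]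
  have x1 : ∀ r < N, x (r + 1) = w (V.getD r 0) := by
    intro r hr
    simp only [x]
    rw [if_neg (by omega), if_pos (by omega)]
    simp
  have x2 : ∀ r < N, x (N + 1 + r) = Real.sqrt (1 - 4 * w (V.getD r 0) ^ 2) := by
    intro r hr
    simp only [x]
    rw [if_neg (by omega), if_neg (by omega)]
    congr 6
    omega
  have xi : ∀ i ∈ V, x (ix V i) = w i := by
    intro i hi
    have h1 := List.idxOf_lt_length_of_mem hi
    unfold ix
    rw [x1 _ h1, List.getD_eq_getElem _ _ h1, List.getElem_idxOf h1]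
  refine ⟨x, ?_, ?_⟩
  · have : ui S = ix V (ev (lastI S)) := rfl
    rw [this, xi _ hmemlast]
    exact hlast
  · intro g hg
    unfold gsys at hg
    rw [List.mem_append, List.mem_append, List.mem_map, List.mem_map] at hg
    rcases hg with hg | ⟨c, hcT, rfl⟩ | ⟨r, hr, rfl⟩
    · rw [List.eq_of_mem_replicate hg]
      simp [gev, tev, bev, zc]
    · have hh := hc c hcT
      cases c with
      | one i =>
        have e1 := xi i (mem_svars hcT (by simp [Con.vars]))
        simp only [Con.HoldsC] at hh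
        simp only [gev, tev, bev, hcon]
        rw [← hV, e1, x0, hh]
        push_cast
        norm_num
      | add i j k =>
        have e1 := xi i (mem_svars hcT (by simp [Con.vars]))
        have e2 := xi j (mem_svars hcT (by simp [Con.vars]))
        have e3 := xi k (mem_svars hcT (by simp [Con.vars]))
        simp only [Con.HoldsC] at hh
        simp only [gev, tev, bev, hcon]
        rw [← hV, e1, e2, e3, x0, ← hh]
        push_cast
        ring
      | mul i j k =>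
        have e1 := xi i (mem_svars hcT (by simp [Con.vars]))
        have e2 := xi j (mem_svars hcT (by simp [Con.vars]))
        have e3 := xi k (mem_svars hcT (by simp [Con.vars]))
        simp only [Con.HoldsC] at hh
        simp only [gev, tev, bev, hcon]
        rw [← hV, e1, e2, e3, x0, ← hh]
        push_cast
        ring
    · have hr := List.mem_range.1 hr
      simp only [gev, tev, bev, slack4]
      rw [← hV, ← hN, x1 r hr, x2 r hr, x0]
      push_cast
      have h1 : 0 ≤ 1 - 4 * w (V.getD r 0) ^ 2 := by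
        have := hw (V.getD r 0)
        have h2 : w (V.getD r 0) ^ 2 ≤ (1 / 8) ^ 2 := by
          rw [← sq_abs]
          exact pow_le_pow_left₀ (abs_nonneg _) this 2
        have h3 : ((1 : ℝ) / 8) ^ 2 ≤ 1 / 4 := by norm_num
        linarith
      have h2 := Real.mul_self_sqrt h1
      nlinarith

theorem main_gt (S : List ER.Con) (h : Sat S) : ∃ x : ℕ → ℝ, ∑ i ∈ range (nn S), x i ^ 2 = 1 ∧
    (48 * ((gsys (esys S)).length : ℝ)) ^ 2 < Pool.Agent.H78R3.TSV.S x x x x (bforms S) := by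
  obtain ⟨x₀, hu, hg⟩ := exists_solution S h
  set s := ∑ i ∈ range (nn S), x₀ i ^ 2 with hs
  have h0 : 0 < s := by
    have h1 : x₀ (ui S) ^ 2 ≤ s :=
      Finset.single_le_sum (f := fun i => x₀ i ^ 2) (fun i _ => sq_nonneg (x₀ i))
        (Finset.mem_range.2 (ui_lt S))
    have h2 : 0 < x₀ (ui S) ^ 2 := by positivity
    linarith
  have hr : Real.sqrt s ^ 2 = s := Real.sq_sqrt h0.le
  have hr0 : 0 < Real.sqrt s := Real.sqrt_pos.2 h0
  obtain ⟨x, hx⟩ : ∃ x : ℕ → ℝ, x = fun i => x₀ i / Real.sqrt s := ⟨_, rfl⟩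
  have hx1 : ∑ i ∈ range (nn S), x i ^ 2 = 1 := by
    rw [hx]
    simp_rw [div_pow, hr]
    rw [← Finset.sum_div, ← hs, div_self h0.ne']
  refine ⟨x, hx1, ?_⟩
  have hg' : ∀ g ∈ gsys (esys S), gev x x g * gev x x g = 0 := by
    intro g hgm
    have h1 : gev x x g = gev x₀ x₀ g / (Real.sqrt s * Real.sqrt s) := by
      rw [hx]
      unfold gev tev bev
      field_simp
    rw [h1, hg g hgm, zero_div, zero_mul]
  have hsum : ((gsys (esys S)).map (fun g => gev x x g * gev x x g)).sum = 0 := by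
    apply List.sum_eq_zero
    intro r hr'
    obtain ⟨g, hgm, rfl⟩ := List.mem_map.1 hr'
    exact hg' g hgm
  have e3 : ∑ i ∈ range (nn S), x i * x i = 1 := by rw [← hx1]; simp only [sq]
  rw [S_bforms, hsum, hx1, e3]
  have hxu : x (ui S) ≠ 0 := by
    rw [hx]
    exact div_ne_zero hu hr0.ne'
  have h2 : 0 < 4 * (x (ui S) * x (ui S)) ^ 2 := by positivity
  nlinarith

end Pool.Agent.X246.SNB
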